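import Pool.Agent.CPG.Game

/-!
A breadth-first tree in `G[U]` in which every branch has small total excess degree has few leaves.
-/

namespace Pool.Agent.CPG

open Finset

variable {V : Type} [Fintype V]

open Classical in
/-- Degree of `v` inside `U`. -/
noncomputable def degU (G : SimpleGraph V) (U : Finset V) (v : V) : ℕ :=
  (U.filter fun u => G.Adj v u).card

/-- The graph `G[U]` on the vertex type `V`. -/
def GU (G : SimpleGraph V) (U : Finset V) : SimpleGraph V where
  Adj a b := a ∈ U ∧ b ∈ U ∧ G.Adj a b
  symm := ⟨fun _ _ h => ⟨h.2.1, h.1, h.2.2.symm⟩⟩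
  loopless := ⟨fun _ h => G.loopless.irrefl _ h.2.2⟩

section
variable (G : SimpleGraph V) (U : Finset V) (r : V)

/-- Distance from `r` in `G[U]`. -/
noncomputable def ds (v : V) : ℕ := (GU G U).dist r v

theorem ds_root : ds G U r r = 0 := by simp [ds]

theorem reach_of_pos {v : V} (h : ds G U r v ≠ 0) : (GU G U).Reachable r v := by
  by_contra hn
  exact h (SimpleGraph.dist_eq_zero_of_not_reachable hn)

theorem ds_lip {u v : V} (h : (GU G U).Adj u v) : ds G U r u ≤ ds G U r v + 1 := by
  by_cases hv : (GU G U).Reachable r v
  · obtain ⟨w, hw⟩ := hv.exists_walk_length_eq_dist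
    have := (GU G U).dist_le (w.concat h.symm)
    rw [SimpleGraph.Walk.length_concat, hw] at this
    exact this
  · have hu : ¬ (GU G U).Reachable r u := fun hu => hv (hu.trans h.reachable)
    have : ds G U r u = 0 := SimpleGraph.dist_eq_zero_of_not_reachable hu
    omega

theorem exists_par {v : V} (h : ds G U r v ≠ 0) :
    ∃ p, (GU G U).Adj p v ∧ ds G U r p + 1 = ds G U r v := by
  have hv := reach_of_pos G U r h
  obtain ⟨w, hw⟩ := hv.exists_walk_length_eq_dist
  have hne : ¬ w.Nil := by
    intro hn
    have : w.length = 0 := SimpleGraph.Walk.length_eq_zero_iff.mpr hn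
    exact h (by unfold ds; omega)
  have hadj := w.adj_penultimate hne
  refine ⟨w.penultimate, hadj, ?_⟩
  have h1 : ds G U r w.penultimate ≤ w.length - 1 := by
    have := (GU G U).dist_le w.dropLast
    rwa [SimpleGraph.Walk.length_dropLast] at this
  have h2 := ds_lip G U r hadj.symm
  have h3 : w.length = ds G U r v := hw
  have h4 : w.length ≠ 0 := by omega
  omega

open Classical in
/-- The parent of a vertex in the breadth-first tree. -/
noncomputable def par (v : V) : V :=
  if h : ds G U r v ≠ 0 then (exists_par G U r h).choose else v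

theorem par_spec {v : V} (h : ds G U r v ≠ 0) :
    (GU G U).Adj (par G U r v) v ∧ ds G U r (par G U r v) + 1 = ds G U r v := by
  unfold par
  rw [dif_pos h]
  exact (exists_par G U r h).choose_spec

open Classical in
/-- The children of `v`. -/
noncomputable def chd (v : V) : Finset V :=
  univ.filter fun c => ds G U r c = ds G U r v + 1 ∧ par G U r c = v

theorem mem_chd {v c : V} : c ∈ chd G U r v ↔ ds G U r c = ds G U r v + 1 ∧ par G U r c = v := by
  simp [chd]

theorem iter_ds {v : V} : ∀ j ≤ ds G U r v, ds G U r ((par G U r)^[j] v) + j = ds G U r v := by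
  intro j
  induction j with
  | zero => intro _; simp
  | succ j ih =>
    intro hj
    have h1 := ih (by omega)
    rw [Function.iterate_succ_apply']
    have h2 := (par_spec G U r (v := (par G U r)^[j] v) (by omega)).2
    omega

theorem chd_card_root : (chd G U r r).card ≤ 2 * 2 ^ (degU G U r - 2) := by
  classical
  have h1 : (chd G U r r).card ≤ degU G U r := by
    apply Finset.card_le_card
    intro c hc
    rw [mem_chd] at hc
    have h := par_spec G U r (v := c) (by omega)
    rw [hc.2] at h
    exact Finset.mem_filter.mpr ⟨h.1.2.1, h.1.2.2⟩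
  have h2 : ∀ x : ℕ, x + 2 ≤ 2 * 2 ^ x := by
    intro x
    have := Nat.lt_two_pow_self (n := x)
    have h3 : x + 1 ≤ 2 ^ x := this
    omega
  have := h2 (degU G U r - 2)
  omega

theorem chd_card {v : V} (hv : ds G U r v ≠ 0) : (chd G U r v).card ≤ 2 ^ (degU G U v - 2) := by
  classical
  have h0 := par_spec G U r hv
  have h1 : (chd G U r v).card + 1 ≤ degU G U v := by
    have hnot : par G U r v ∉ chd G U r v := by
      intro h
      rw [mem_chd] at h
      omega
    rw [← Finset.card_insert_of_notMem hnot]
    apply Finset.card_le_card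
    intro c hc
    rw [Finset.mem_insert] at hc
    rcases hc with hc | hc
    · subst hc
      exact Finset.mem_filter.mpr ⟨h0.1.1, h0.1.2.2.symm⟩
    · rw [mem_chd] at hc
      have h := par_spec G U r (v := c) (by omega)
      rw [hc.2] at h
      exact Finset.mem_filter.mpr ⟨h.1.2.1, h.1.2.2⟩
  have h2 : ∀ x : ℕ, x + 1 ≤ 2 ^ x := fun x => Nat.lt_two_pow_self (n := x)
  rcases Nat.eq_zero_or_pos (chd G U r v).card with h | h
  · rw [h]; exact Nat.zero_le _
  · have := h2 (degU G U v - 2)
    omega

open Classical in
/-- Leaves below `v`. -/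
noncomputable def lfb (v : V) : Finset V :=
  univ.filter fun l => chd G U r l = ∅ ∧ ∃ j, ds G U r l = ds G U r v + j ∧
    (par G U r)^[j] l = v

theorem mem_lfb {v l : V} : l ∈ lfb G U r v ↔ chd G U r l = ∅ ∧
    ∃ j, ds G U r l = ds G U r v + j ∧ (par G U r)^[j] l = v := by
  simp [lfb]

/-- Excess along the branch from `l` up `j` steps. -/
noncomputable def exc (j : ℕ) (l : V) : ℕ :=
  ∑ i ∈ range (j + 1), (degU G U ((par G U r)^[i] l) - 2)

open Classical in
theorem lfb_step {v : V} (hv : chd G U r v ≠ ∅) :
    lfb G U r v ⊆ (chd G U r v).biUnion fun c => lfb G U r c := by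
  intro l hl
  rw [mem_lfb] at hl
  obtain ⟨hleaf, j, hj, hjv⟩ := hl
  rw [Finset.mem_biUnion]
  rcases j with _ | j
  · simp only [Function.iterate_zero, id_eq] at hjv
    subst hjv
    exact absurd hleaf hv
  · refine ⟨(par G U r)^[j] l, ?_, ?_⟩
    · rw [mem_chd]
      have := iter_ds G U r (v := l) j (by omega)
      refine ⟨by omega, ?_⟩
      rw [← Function.iterate_succ_apply' (par G U r), hjv]
    · rw [mem_lfb]
      have := iter_ds G U r (v := l) j (by omega)
      exact ⟨hleaf, j, by omega, rfl⟩

theorem lfb_card : ∀ n, ∀ v : V, ds G U r v ≠ 0 → Fintype.card V ≤ ds G U r v + n → ∀ B,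
    (∀ l ∈ lfb G U r v, ∀ j, ds G U r l = ds G U r v + j → (par G U r)^[j] l = v →
      exc G U r j l ≤ B) → (lfb G U r v).card ≤ 2 ^ B := by
  classical
  intro n
  induction n with
  | zero =>
    intro v hv hn B hB
    -- impossible: the distance is smaller than the number of vertices
    exfalso
    have hr := reach_of_pos G U r hv
    obtain ⟨w, hp, hw⟩ := hr.exists_path_of_dist
    have h1 := hp.length_lt
    have h2 : w.length = ds G U r v := hw
    omega
  | succ n ih =>
    intro v hv hn B hB
    by_cases hc : chd G U r v = ∅
    · have hle : (lfb G U r v).card ≤ 1 := by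
        rw [Finset.card_le_one]
        have key : ∀ l ∈ lfb G U r v, l = v := by
          intro l hl
          rw [mem_lfb] at hl
          obtain ⟨hleaf, j, hj, hjv⟩ := hl
          rcases j with _ | j
          · simpa using hjv
          · exfalso
            have : (par G U r)^[j] l ∈ chd G U r v := by
              rw [mem_chd]
              have := iter_ds G U r (v := l) j (by omega)
              refine ⟨by omega, ?_⟩
              rw [← Function.iterate_succ_apply' (par G U r), hjv]
            rw [hc] at this
            simp at this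
        intro a ha b hb
        rw [key a ha, key b hb]
      exact hle.trans Nat.one_le_two_pow
    · by_cases hne : (lfb G U r v).Nonempty
      · -- weight of `v` is at most `B`
        have hwt : ∀ l ∈ lfb G U r v, ∀ j, ds G U r l = ds G U r v + j →
            (par G U r)^[j] l = v → 1 ≤ j →
            exc G U r (j - 1) l + (degU G U v - 2) ≤ B := by
          intro l hl j hj hjv hj1
          have := hB l hl j hj hjv
          unfold exc at this ⊢
          rw [Finset.sum_range_succ, hjv] at this
          rwa [Nat.sub_add_cancel hj1]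
        have hpos : ∀ l ∈ lfb G U r v, ∀ j, ds G U r l = ds G U r v + j →
            (par G U r)^[j] l = v → 1 ≤ j := by
          intro l hl j hj hjv
          rcases j with _ | j
          · simp only [Function.iterate_zero, id_eq] at hjv
            subst hjv
            rw [mem_lfb] at hl
            exact absurd hl.1 hc
          · omega
        have hvB : degU G U v - 2 ≤ B := by
          obtain ⟨l, hl⟩ := hne
          have hl' := hl
          rw [mem_lfb] at hl'
          obtain ⟨_, j, hj, hjv⟩ := hl'
          have := hwt l hl j hj hjv (hpos l hl j hj hjv)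
          omega
        have hchild : ∀ c ∈ chd G U r v, (lfb G U r c).card ≤ 2 ^ (B - (degU G U v - 2)) := by
          intro c hcm
          have hcm' := hcm
          rw [mem_chd] at hcm'
          refine ih c (by omega) (by omega) _ ?_
          intro l hl j hj hjc
          have hlv : l ∈ lfb G U r v := by
            rw [mem_lfb] at hl ⊢
            refine ⟨hl.1, j + 1, by omega, ?_⟩
            rw [Function.iterate_succ_apply', hjc, hcm'.2]
          have := hwt l hlv (j + 1) (by omega)
            (by rw [Function.iterate_succ_apply', hjc, hcm'.2]) (by omega)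
          simp only [Nat.add_sub_cancel] at this
          omega
        calc (lfb G U r v).card
            ≤ ((chd G U r v).biUnion fun c => lfb G U r c).card :=
              Finset.card_le_card (lfb_step G U r hc)
          _ ≤ ∑ c ∈ chd G U r v, (lfb G U r c).card := Finset.card_biUnion_le
          _ ≤ ∑ _c ∈ chd G U r v, 2 ^ (B - (degU G U v - 2)) := Finset.sum_le_sum hchild
          _ = (chd G U r v).card * 2 ^ (B - (degU G U v - 2)) := by
              rw [Finset.sum_const, smul_eq_mul]
          _ ≤ 2 ^ (degU G U v - 2) * 2 ^ (B - (degU G U v - 2)) :=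
              Nat.mul_le_mul_right _ (chd_card G U r hv)
          _ = 2 ^ B := by rw [← pow_add]; congr 1; omega
      · rw [Finset.not_nonempty_iff_eq_empty.mp hne]
        simp

/-- Number of leaves of the whole tree. -/
theorem lfb_root {B : ℕ}
    (hB : ∀ l ∈ lfb G U r r, exc G U r (ds G U r l) l ≤ B) :
    (lfb G U r r).card ≤ 2 * 2 ^ B := by
  classical
  have hr0 := ds_root G U r
  by_cases hc : chd G U r r = ∅
  · have hle : (lfb G U r r).card ≤ 1 := by
      rw [Finset.card_le_one]
      have key : ∀ l ∈ lfb G U r r, l = r := by
        intro l hl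
        rw [mem_lfb] at hl
        obtain ⟨hleaf, j, hj, hjv⟩ := hl
        rcases j with _ | j
        · simpa using hjv
        · exfalso
          have : (par G U r)^[j] l ∈ chd G U r r := by
            rw [mem_chd]
            have := iter_ds G U r (v := l) j (by omega)
            refine ⟨by omega, ?_⟩
            rw [← Function.iterate_succ_apply' (par G U r), hjv]
          rw [hc] at this
          simp at this
      intro a ha b hb
      rw [key a ha, key b hb]
    have := Nat.one_le_two_pow (n := B)
    omega
  · by_cases hne : (lfb G U r r).Nonempty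
    · have hwt : ∀ l ∈ lfb G U r r, ∀ j, ds G U r l = ds G U r r + j →
          (par G U r)^[j] l = r → 1 ≤ j ∧ exc G U r (j - 1) l + (degU G U r - 2) ≤ B := by
        intro l hl j hj hjv
        have hj1 : 1 ≤ j := by
          rcases j with _ | j
          · simp only [Function.iterate_zero, id_eq] at hjv
            subst hjv
            rw [mem_lfb] at hl
            exact absurd hl.1 hc
          · omega
        refine ⟨hj1, ?_⟩
        have hjl : ds G U r l = j := by omega
        have := hB l hl
        rw [hjl] at this
        unfold exc at this ⊢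
        rw [Finset.sum_range_succ, hjv] at this
        rwa [Nat.sub_add_cancel hj1]
      have hvB : degU G U r - 2 ≤ B := by
        obtain ⟨l, hl⟩ := hne
        have hl' := hl
        rw [mem_lfb] at hl'
        obtain ⟨_, j, hj, hjv⟩ := hl'
        have := (hwt l hl j hj hjv).2
        omega
      have hchild : ∀ c ∈ chd G U r r, (lfb G U r c).card ≤ 2 ^ (B - (degU G U r - 2)) := by
        intro c hcm
        have hcm' := hcm
        rw [mem_chd] at hcm'
        refine lfb_card G U r (Fintype.card V) c (by omega) (by omega) _ ?_
        intro l hl j hj hjc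
        have hlv : l ∈ lfb G U r r := by
          rw [mem_lfb] at hl ⊢
          refine ⟨hl.1, j + 1, by omega, ?_⟩
          rw [Function.iterate_succ_apply', hjc, hcm'.2]
        have := (hwt l hlv (j + 1) (by omega)
          (by rw [Function.iterate_succ_apply', hjc, hcm'.2])).2
        simp only [Nat.add_sub_cancel] at this
        omega
      calc (lfb G U r r).card
          ≤ ((chd G U r r).biUnion fun c => lfb G U r c).card :=
            Finset.card_le_card (lfb_step G U r hc)
        _ ≤ ∑ c ∈ chd G U r r, (lfb G U r c).card := Finset.card_biUnion_le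
        _ ≤ ∑ _c ∈ chd G U r r, 2 ^ (B - (degU G U r - 2)) := Finset.sum_le_sum hchild
        _ = (chd G U r r).card * 2 ^ (B - (degU G U r - 2)) := by
            rw [Finset.sum_const, smul_eq_mul]
        _ ≤ 2 * 2 ^ (degU G U r - 2) * 2 ^ (B - (degU G U r - 2)) :=
            Nat.mul_le_mul_right _ (chd_card_root G U r)
        _ = 2 * 2 ^ B := by rw [mul_assoc, ← pow_add]; congr 2; omega
    · rw [Finset.not_nonempty_iff_eq_empty.mp hne]
      simp

/-- The branch from the root to `l`. -/
noncomputable def brn (l : V) (i : ℕ) : V := (par G U r)^[ds G U r l - i] l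

theorem brn_ds {l : V} {i : ℕ} (hi : i ≤ ds G U r l) : ds G U r (brn G U r l i) = i := by
  unfold brn
  have := iter_ds G U r (v := l) (ds G U r l - i) (by omega)
  omega

theorem brn_guard (l : V) : Guard G (U : Set V) (ds G U r) (brn G U r l) (ds G U r l) := by
  refine ⟨?_, ?_, ?_⟩
  · intro u hu v hv huv
    exact ds_lip G U r ⟨hu, hv, huv⟩
  · intro i hi
    have h1 : brn G U r l i = par G U r (brn G U r l (i + 1)) := by
      unfold brn
      rw [← Function.iterate_succ_apply' (par G U r)]
      congr 1
      omega
    rw [h1]
    exact (par_spec G U r (v := brn G U r l (i + 1))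
      (by rw [brn_ds G U r (by omega)]; omega)).1.2.2
  · intro i hi _
    exact brn_ds G U r hi

theorem iter_mem {l : V} (hl : l ∈ U) : ∀ j ≤ ds G U r l, (par G U r)^[j] l ∈ U := by
  intro j
  induction j with
  | zero => intro _; simpa using hl
  | succ j ih =>
    intro hj
    rw [Function.iterate_succ_apply']
    have := iter_ds G U r (v := l) j (by omega)
    exact (par_spec G U r (v := (par G U r)^[j] l) (by omega)).1.1

theorem brn_mem {l : V} (hl : l ∈ U) : ∀ i ≤ ds G U r l, brn G U r l i ∈ U := by
  intro i hi
  exact iter_mem G U r hl _ (by omega)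

theorem exc_eq (l : V) :
    exc G U r (ds G U r l) l =
      ∑ i ∈ range (ds G U r l + 1), (degU G U (brn G U r l i) - 2) := by
  unfold exc brn
  rw [← Finset.sum_range_reflect]
  apply Finset.sum_congr rfl
  intro i hi
  rw [Finset.mem_range] at hi
  have : ds G U r l + 1 - 1 - i = ds G U r l - i := by omega
  rw [this]

/-- Every vertex reachable from `r` lies on the branch of a leaf. -/
theorem exists_leaf : ∀ n, ∀ v : V, (GU G U).Reachable r v → Fintype.card V ≤ ds G U r v + n →
    ∃ l, (GU G U).Reachable r l ∧ l ∈ lfb G U r v := by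
  intro n
  induction n with
  | zero =>
    intro v hv hn
    exfalso
    obtain ⟨w, hp, hw⟩ := hv.exists_path_of_dist
    have h1 := hp.length_lt
    have h2 : w.length = ds G U r v := hw
    omega
  | succ n ih =>
    intro v hv hn
    by_cases hc : chd G U r v = ∅
    · exact ⟨v, hv, by rw [mem_lfb]; exact ⟨hc, 0, by omega, rfl⟩⟩
    · obtain ⟨c, hcm⟩ := Finset.nonempty_iff_ne_empty.mpr hc
      rw [mem_chd] at hcm
      obtain ⟨l, hl, hlm⟩ := ih c (reach_of_pos G U r (by omega)) (by omega)
      refine ⟨l, hl, ?_⟩
      rw [mem_lfb] at hlm ⊢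
      obtain ⟨h1, j, hj, hjc⟩ := hlm
      refine ⟨h1, j + 1, by omega, ?_⟩
      rw [Function.iterate_succ_apply', hjc, hcm.2]

end

/-- Covering by guarded paths. -/
theorem cw_cover {G : SimpleGraph V} (hconn : G.Connected) :
    ∀ (S : Finset V) (K : Set V) (f : V → ℕ) (P : V → ℕ → V) (L : V → ℕ),
      (∀ l ∈ S, Guard G K f (P l) (L l)) → (∀ v ∈ K, ∃ l ∈ S, ∃ i ≤ L l, P l i = v) →
      CW G S.card K := by
  classical
  intro S
  induction S using Finset.induction_on with
  | empty =>
    intro K f P L _ hcov c r hr
    obtain ⟨l, hl, _⟩ := hcov r hr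
    simp at hl
  | insert a S ha ih =>
    intro K f P L hG hcov
    rw [Finset.card_insert_of_notMem ha]
    refine CW.guard hconn (hG a (Finset.mem_insert_self _ _)) ?_
    refine ih _ f P L ?_ ?_
    · intro l hl
      exact (hG l (Finset.mem_insert_of_mem hl)).mono Set.sdiff_subset
    · rintro v ⟨hv, hvn⟩
      obtain ⟨l, hl, i, hi, hPi⟩ := hcov v hv
      rw [Finset.mem_insert] at hl
      rcases hl with hl | hl
      · subst hl
        exact absurd ⟨i, hi, hPi⟩ hvn
      · exact ⟨l, hl, i, hi, hPi⟩

/-- **Few leaves.** If every guarded path inside `U` has total excess degree at most `B`, then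
`2 * 2 ^ B` cops catch a robber confined to `U`. -/
theorem cw_of_small {G : SimpleGraph V} (hconn : G.Connected) (U : Finset V) (B : ℕ)
    (hB : ∀ (f : V → ℕ) (P : ℕ → V) (L : ℕ), Guard G (U : Set V) f P L → (∀ i ≤ L, P i ∈ U) →
      ∑ i ∈ range (L + 1), (degU G U (P i) - 2) ≤ B) :
    CW G (2 * 2 ^ B) (U : Set V) := by
  classical
  intro c r hr
  -- the component of `r`
  set K : Set V := {v | (GU G U).Reachable r v} with hK
  have hKU : K ⊆ (U : Set V) := by
    intro v hv
    by_cases h : ds G U r v = 0
    · have : r = v := (SimpleGraph.Reachable.dist_eq_zero_iff hv).mp h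
      rw [← this]; exact hr
    · exact (par_spec G U r h).1.2.1
  have hlU : ∀ l ∈ lfb G U r r, l ∈ U := by
    intro l hl
    rw [mem_lfb] at hl
    obtain ⟨_, j, hj, hjr⟩ := hl
    by_cases h : ds G U r l = 0
    · have : j = 0 := by omega
      subst this
      simp only [Function.iterate_zero, id_eq] at hjr
      rw [hjr]; exact hr
    · exact (par_spec G U r h).1.2.1
  have hcard : (lfb G U r r).card ≤ 2 * 2 ^ B := by
    apply lfb_root
    intro l hl
    rw [exc_eq]
    exact hB _ _ _ (brn_guard G U r l) (brn_mem G U r (hlU l hl))
  have hcw : CW G (lfb G U r r).card K := by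
    refine cw_cover hconn (lfb G U r r) K (ds G U r) (fun l => brn G U r l)
      (fun l => ds G U r l) ?_ ?_
    · intro l _
      exact (brn_guard G U r l).mono hKU
    · intro v hv
      obtain ⟨l, hlr, hl⟩ := exists_leaf G U r (Fintype.card V) v hv (by omega)
      rw [mem_lfb] at hl
      obtain ⟨hleaf, j, hj, hjv⟩ := hl
      refine ⟨l, ?_, ds G U r v, by omega, ?_⟩
      · rw [mem_lfb]
        refine ⟨hleaf, ds G U r l, by rw [ds_root]; omega, ?_⟩
        have h1 := iter_ds G U r (v := l) (ds G U r l) le_rfl
        have h2 : ds G U r ((par G U r)^[ds G U r l] l) = 0 := by omega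
        -- it is reachable and at distance 0
        have h3 : ∀ i ≤ ds G U r l, (GU G U).Reachable r ((par G U r)^[i] l) := by
          intro i
          induction i with
          | zero => intro _; simpa using hlr
          | succ i ih =>
            intro hi
            rw [Function.iterate_succ_apply']
            have h5 := iter_ds G U r (v := l) i (by omega)
            exact (ih (by omega)).trans
              (par_spec G U r (v := (par G U r)^[i] l) (by omega)).1.symm.reachable
        exact ((SimpleGraph.Reachable.dist_eq_zero_iff (h3 _ le_rfl)).mp h2).symm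
      · show (par G U r)^[ds G U r l - ds G U r v] l = v
        have : ds G U r l - ds G U r v = j := by omega
        rw [this]; exact hjv
  have hwin : Win G (2 * 2 ^ B) K c r := (hcw.mono hcard) c r (SimpleGraph.Reachable.refl r)
  refine win_closed G ?_ (SimpleGraph.Reachable.refl r) hwin
  intro u hu v hv hs
  rcases hs with hs | hs
  · rw [← hs]; exact hu
  · exact hu.trans (SimpleGraph.Adj.reachable (⟨hKU hu, hv, hs⟩ : (GU G U).Adj u v))

end Pool.Agent.CPG
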