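import Pool.Agent.CPG.BFS

/-!
The main induction and the reduction to the 2-core.
-/

namespace Pool.Agent.CPG

open Finset

variable {V : Type} [Fintype V]

/-- Total excess degree of `G[U]`. -/
noncomputable def wt (G : SimpleGraph V) (U : Finset V) : ℕ := ∑ v ∈ U, (degU G U v - 2)

omit [Fintype V] in
theorem degU_mono (G : SimpleGraph V) {U W : Finset V} (h : U ⊆ W) (v : V) :
    degU G U v ≤ degU G W v := by
  classical
  exact Finset.card_le_card (Finset.filter_subset_filter _ h)

/-- The main induction. -/
theorem cw_wt {G : SimpleGraph V} (hconn : G.Connected) {D : ℕ} (hD : 1 ≤ D) :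
    ∀ n, ∀ U : Finset V, wt G U ≤ n → CW G (wt G U / D + 2 ^ D) (U : Set V) := by
  classical
  intro n
  induction n using Nat.strong_induction_on with
  | _ n ih =>
    intro U hU
    by_cases hsm : ∀ (f : V → ℕ) (P : ℕ → V) (L : ℕ), Guard G (U : Set V) f P L →
        (∀ i ≤ L, P i ∈ U) → ∑ i ∈ range (L + 1), (degU G U (P i) - 2) ≤ D - 1
    · have h := cw_of_small hconn U (D - 1) hsm
      refine h.mono ?_
      have : 2 * 2 ^ (D - 1) = 2 ^ D := by
        rw [← pow_succ']
        congr 1
        omega
      rw [this]
      exact Nat.le_add_left _ _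
    · push Not at hsm
      obtain ⟨f, P, L, hG, hP, hlt⟩ := hsm
      set W : Finset V := U.filter fun v => ¬ ∃ i ≤ L, P i = v with hW
      have hWU : W ⊆ U := Finset.filter_subset _ _
      have hcoe : (U : Set V) \ {v | ∃ i ≤ L, P i = v} = (W : Set V) := by
        ext v
        simp [hW]
      have hinj : ∀ i ≤ L, ∀ j ≤ L, P i = P j → i = j := by
        intro i hi j hj hij
        have h1 := hG.val i hi (hP i hi)
        have h2 := hG.val j hj (hP j hj)
        rw [hij, h2] at h1
        exact h1.symm
      have himg : (range (L + 1)).image P ⊆ U := by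
        intro v hv
        rw [Finset.mem_image] at hv
        obtain ⟨i, hi, hiv⟩ := hv
        rw [Finset.mem_range] at hi
        rw [← hiv]
        exact hP i (by omega)
      have hsum : wt G W + D ≤ wt G U := by
        have h1 : ∑ v ∈ (range (L + 1)).image P, (degU G U v - 2) =
            ∑ i ∈ range (L + 1), (degU G U (P i) - 2) := by
          refine Finset.sum_image ?_
          intro i hi j hj hij
          have hi' := Finset.mem_range.mp (Finset.mem_coe.mp hi)
          have hj' := Finset.mem_range.mp (Finset.mem_coe.mp hj)
          exact hinj i (by omega) j (by omega) hij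
        have h2 : wt G W ≤ ∑ v ∈ W, (degU G U v - 2) :=
          Finset.sum_le_sum fun v _ => Nat.sub_le_sub_right (degU_mono G hWU v) 2
        have h3 : Disjoint W ((range (L + 1)).image P) := by
          rw [Finset.disjoint_left]
          intro v hv hv2
          rw [Finset.mem_image] at hv2
          obtain ⟨i, hi, hiv⟩ := hv2
          rw [Finset.mem_range] at hi
          exact (Finset.mem_filter.mp hv).2 ⟨i, by omega, hiv⟩
        have h4 : ∑ v ∈ W ∪ (range (L + 1)).image P, (degU G U v - 2) ≤ wt G U :=
          Finset.sum_le_sum_of_subset (Finset.union_subset hWU himg)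
        rw [Finset.sum_union h3, h1] at h4
        omega
      have hih := ih (wt G W) (by omega) W le_rfl
      have hg : CW G (wt G W / D + 2 ^ D + 1) (U : Set V) := by
        refine CW.guard hconn hG ?_
        rw [hcoe]
        exact hih
      refine hg.mono ?_
      have h5 : (wt G W + D) / D ≤ wt G U / D := Nat.div_le_div_right hsum
      rw [Nat.add_div_right _ (by omega)] at h5
      omega

/-- One cop catches a robber confined to one vertex. -/
theorem cw_single {G : SimpleGraph V} (hconn : G.Connected) (v : V) :
    CW G 1 ({v} : Set V) := by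
  have h : CW G (0 + 1) ({v} : Set V) := by
    refine CW.guard hconn (f := fun _ => 0) (P := fun _ => v) (L := 0) ?_ ?_
    · refine ⟨fun _ _ _ _ _ => by omega, fun i hi => by omega, fun i hi _ => by omega⟩
    · intro c r hr
      exact absurd ⟨0, le_rfl, hr.1.symm⟩ hr.2
  simpa using h

/-- The set `U` induces a connected graph. -/
def ConnU (G : SimpleGraph V) (U : Finset V) : Prop :=
  ∀ a ∈ U, ∀ b ∈ U, (GU G U).Reachable a b

theorem connU_univ {G : SimpleGraph V} (hconn : G.Connected) : ConnU G univ := by
  intro a _ b _
  have : GU G univ = G := by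
    ext x y
    simp [GU]
  rw [this]
  exact hconn.preconnected a b

open Classical in
theorem connU_leaf {G : SimpleGraph V} {U : Finset V} (hU : ConnU G U) {u v : V} (hv : v ∈ U)
    (hu : u ∈ U) (huv : G.Adj v u) (honly : ∀ w ∈ U, G.Adj v w → w = u) :
    ConnU G (U.erase v) := by
  have key : ∀ a b : V, (GU G U).Walk a b →
      (GU G (U.erase v)).Reachable (if a = v then u else a) (if b = v then u else b) := by
    intro a b w
    induction w with
    | nil => exact SimpleGraph.Reachable.refl _
    | @cons a b c hab w ih =>
      refine SimpleGraph.Reachable.trans ?_ ih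
      obtain ⟨ha, hb, hadj⟩ := hab
      by_cases hav : a = v
      · subst hav
        have hbu : b = u := honly b hb hadj
        subst hbu
        rw [if_pos rfl, if_neg hadj.ne']
      · by_cases hbv : b = v
        · subst hbv
          have hau : a = u := honly a ha hadj.symm
          subst hau
          rw [if_neg hav, if_pos rfl]
        · rw [if_neg hav, if_neg hbv]
          exact SimpleGraph.Adj.reachable
            (⟨Finset.mem_erase.mpr ⟨hav, ha⟩, Finset.mem_erase.mpr ⟨hbv, hb⟩, hadj⟩ :
              (GU G (U.erase v)).Adj a b)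
  intro a ha b hb
  rw [Finset.mem_erase] at ha hb
  obtain ⟨w⟩ := hU a ha.2 b hb.2
  have := key a b w
  rwa [if_neg ha.1, if_neg hb.1] at this

/-- Sum of the degrees inside `U`. -/
noncomputable def dsum (G : SimpleGraph V) (U : Finset V) : ℕ := ∑ v ∈ U, degU G U v

open Classical in
theorem dsum_leaf {G : SimpleGraph V} {U : Finset V} {u v : V} (hv : v ∈ U)
    (hu : u ∈ U) (huv : G.Adj v u) (honly : ∀ w ∈ U, G.Adj v w → w = u) :
    dsum G U = dsum G (U.erase v) + 2 := by
  unfold dsum
  rw [← Finset.add_sum_erase U _ hv]
  have h1 : degU G U v = 1 := by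
    unfold degU
    rw [Finset.card_eq_one]
    refine ⟨u, ?_⟩
    ext w
    rw [Finset.mem_filter, Finset.mem_singleton]
    exact ⟨fun h => honly w h.1 h.2, fun h => by rw [h]; exact ⟨hu, huv⟩⟩
  have h2 : ∀ w ∈ U.erase v, degU G U w = degU G (U.erase v) w + if w = u then 1 else 0 := by
    intro w hw
    rw [Finset.mem_erase] at hw
    unfold degU
    rw [Finset.filter_erase]
    by_cases hwu : w = u
    · rw [if_pos hwu]
      have hmem : v ∈ U.filter fun x => G.Adj w x :=
        Finset.mem_filter.mpr ⟨hv, by rw [hwu]; exact huv.symm⟩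
      rw [Finset.card_erase_add_one hmem]
    · rw [if_neg hwu]
      have hmem : v ∉ U.filter fun x => G.Adj w x := by
        intro h
        exact hwu (honly w hw.2 (Finset.mem_filter.mp h).2.symm)
      rw [Finset.erase_eq_of_notMem hmem, Nat.add_zero]
  rw [h1, Finset.sum_congr rfl h2, Finset.sum_add_distrib]
  have h3 : ∑ w ∈ U.erase v, (if w = u then 1 else 0) = 1 := by
    rw [Finset.sum_ite_eq' (U.erase v) u (fun _ => 1)]
    rw [if_pos (Finset.mem_erase.mpr ⟨huv.ne', hu⟩)]
  rw [h3]
  omega

/-- **The 2-core.** -/
theorem exists_core {G : SimpleGraph V} : ∀ n, ∀ U : Finset V, U.card ≤ n → U.Nonempty →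
    ConnU G U → ∃ W : Finset V, (∀ k, CW G k (W : Set V) → CW G k (U : Set V)) ∧ W.Nonempty ∧
      dsum G W + 2 * U.card = dsum G U + 2 * W.card ∧
      ((∃ v, W = {v}) ∨ ∀ v ∈ W, 2 ≤ degU G W v) := by
  classical
  intro n
  induction n with
  | zero =>
    intro U hU hne _
    exact absurd hne (by rw [Finset.not_nonempty_iff_eq_empty]; exact Finset.card_eq_zero.mp (by omega))
  | succ n ih =>
    intro U hU hne hC
    by_cases hleaf : ∃ v ∈ U, ∃ u ∈ U, G.Adj v u ∧ ∀ w ∈ U, G.Adj v w → w = u
    · obtain ⟨v, hv, u, hu, huv, honly⟩ := hleaf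
      have hcard := Finset.card_erase_add_one hv
      obtain ⟨W, h1, h2, h3, h4⟩ := ih (U.erase v) (by omega)
        ⟨u, Finset.mem_erase.mpr ⟨huv.ne', hu⟩⟩ (connU_leaf hC hv hu huv honly)
      refine ⟨W, ?_, h2, ?_, h4⟩
      · intro k hk
        have := h1 k hk
        refine CW.leaf (G := G) (U := (U : Set V)) hv hu huv honly ?_
        rw [Finset.coe_erase] at this
        exact this
      · have := dsum_leaf hv hu huv honly
        omega
    · refine ⟨U, fun _ h => h, hne, rfl, ?_⟩
      by_cases hone : ∃ v, U = {v}
      · exact Or.inl hone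
      · right
        intro v hv
        by_contra hlt
        push Not at hlt
        -- there is another vertex
        have hw : ∃ w ∈ U, w ≠ v := by
          by_contra hn
          push Not at hn
          apply hone
          refine ⟨v, ?_⟩
          ext x
          rw [Finset.mem_singleton]
          exact ⟨fun h => hn x h, fun h => by rw [h]; exact hv⟩
        obtain ⟨w, hwU, hwv⟩ := hw
        obtain ⟨p⟩ := hC v hv w hwU
        cases p with
        | nil => exact hwv rfl
        | @cons _ u _ hadj p =>
          obtain ⟨_, hu, huv⟩ := hadj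
          apply hleaf
          refine ⟨v, hv, u, hu, huv, ?_⟩
          intro x hx hvx
          by_contra hxu
          have : 2 ≤ degU G U v := by
            unfold degU
            have hsub : ({u, x} : Finset V) ⊆ U.filter fun y => G.Adj v y := by
              intro y hy
              rw [Finset.mem_insert, Finset.mem_singleton] at hy
              rcases hy with hy | hy
              · rw [hy]; exact Finset.mem_filter.mpr ⟨hu, huv⟩
              · rw [hy]; exact Finset.mem_filter.mpr ⟨hx, hvx⟩
            have h5 := Finset.card_le_card hsub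
            rwa [Finset.card_pair (Ne.symm hxu)] at h5
          omega

/-- **Main estimate.** For a connected graph with `n` vertices and `m` edges and every `D ≥ 1`,
`(2 m - 2 n) / D + 2 ^ D` cops win. -/
theorem cw_main {G : SimpleGraph V} [DecidableRel G.Adj] (hconn : G.Connected) {D : ℕ}
    (hD : 1 ≤ D) :
    CW G ((2 * G.edgeFinset.card - 2 * Fintype.card V) / D + 2 ^ D) Set.univ := by
  classical
  have hne : (univ : Finset V).Nonempty := by
    obtain ⟨v⟩ := hconn.nonempty
    exact ⟨v, mem_univ v⟩
  obtain ⟨W, h1, h2, h3, h4⟩ := exists_core (G := G) _ univ le_rfl hne (connU_univ hconn)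
  rw [Finset.coe_univ] at h1
  apply h1
  have hds : dsum G univ = 2 * G.edgeFinset.card := by
    rw [← G.sum_degrees_eq_twice_card_edges]
    unfold dsum
    apply Finset.sum_congr rfl
    intro v _
    unfold degU
    rw [← G.card_neighborFinset_eq_degree]
    congr 1
    ext w
    simp
  rcases h4 with ⟨v, hv⟩ | h4
  · rw [hv, Finset.coe_singleton]
    refine (cw_single hconn v).mono ?_
    exact le_trans (Nat.one_le_two_pow (n := D)) (Nat.le_add_left _ _)
  · have hwt : wt G W + 2 * W.card = dsum G W := by
      unfold wt dsum
      have : 2 * W.card = ∑ _v ∈ W, 2 := by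
        rw [Finset.sum_const, smul_eq_mul, mul_comm]
      rw [this, ← Finset.sum_add_distrib]
      apply Finset.sum_congr rfl
      intro v hv
      have := h4 v hv
      omega
    have hcu : (univ : Finset V).card = Fintype.card V := rfl
    have hwt2 : wt G W = 2 * G.edgeFinset.card - 2 * Fintype.card V := by omega
    rw [← hwt2]
    exact cw_wt hconn hD _ W le_rfl

end Pool.Agent.CPG
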