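import Mathlib

/-!
Cops and Robber: the game, guarding an isometric path, retraction of a leaf.
-/

namespace Pool.Agent.CPG

variable {V : Type}

/-- One move: stay put or move to an adjacent vertex. -/
def Step (G : SimpleGraph V) (a b : V) : Prop := a = b ∨ G.Adj a b

/-- `Win G k U c r`: the `k` cops stand at `c`, the robber at `r`, the cops are to move, the robber
may only use vertices of `U`, and the cops can force a capture after finitely many moves. -/
inductive Win (G : SimpleGraph V) (k : ℕ) (U : Set V) : (Fin k → V) → V → Prop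
  | capture (c : Fin k → V) (r : V) (c' : Fin k → V) (hm : ∀ i, Step G (c i) (c' i))
      (h : ∃ i, c' i = r) : Win G k U c r
  | move (c : Fin k → V) (r : V) (c' : Fin k → V) (hm : ∀ i, Step G (c i) (c' i))
      (h : ∀ r', r' ∈ U → Step G r r' → Win G k U c' r') : Win G k U c r

/-- The cops win with `k` cops against a robber confined to `U`, from all positions. -/
def CW (G : SimpleGraph V) (k : ℕ) (U : Set V) : Prop :=
  ∀ c : Fin k → V, ∀ r ∈ U, Win G k U c r

theorem Step.rfl' (G : SimpleGraph V) (a : V) : Step G a a := Or.inl rfl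

theorem cons_step (G : SimpleGraph V) {k : ℕ} {g g' : V} {c c' : Fin k → V}
    (hg : Step G g g') (hc : ∀ i, Step G (c i) (c' i)) :
    ∀ i, Step G ((Fin.cons g c : Fin (k + 1) → V) i) ((Fin.cons g' c' : Fin (k + 1) → V) i) := by
  intro i
  refine Fin.cases ?_ (fun j => ?_) i
  · rw [Fin.cons_zero, Fin.cons_zero]; exact hg
  · rw [Fin.cons_succ, Fin.cons_succ]; exact hc j

theorem win_here (G : SimpleGraph V) {k : ℕ} {U : Set V} {c : Fin k → V} {r : V}
    (h : ∃ i, c i = r) : Win G k U c r :=
  Win.capture c r c (fun i => Step.rfl' G _) h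

theorem win_closed (G : SimpleGraph V) {k : ℕ} {K U : Set V}
    (hcl : ∀ u ∈ K, ∀ v ∈ U, Step G u v → v ∈ K) {c : Fin k → V} {r : V} (hr : r ∈ K)
    (h : Win G k K c r) : Win G k U c r := by
  induction h with
  | capture c r c' hm h => exact Win.capture c r c' hm h
  | move c r c' hm h ih =>
    refine Win.move c r c' hm ?_
    intro r' hr' hs
    exact ih r' (hcl r hr r' hr' hs) hs (hcl r hr r' hr' hs)

theorem win_succ (G : SimpleGraph V) {k : ℕ} {U : Set V} {c : Fin k → V} {r : V} (g : V)
    (h : Win G k U c r) : Win G (k + 1) U (Fin.cons g c) r := by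
  induction h with
  | capture c r c' hm h =>
    refine Win.capture _ r (Fin.cons g c') ?_ ?_
    · exact cons_step G (Step.rfl' G g) hm
    · obtain ⟨i, hi⟩ := h
      exact ⟨i.succ, by simpa using hi⟩
  | move c r c' hm h ih =>
    refine Win.move _ r (Fin.cons g c') ?_ ?_
    · exact cons_step G (Step.rfl' G g) hm
    · intro r' hr' hs
      exact ih r' hr' hs

theorem CW.succ {G : SimpleGraph V} {k : ℕ} {U : Set V} (h : CW G k U) : CW G (k + 1) U := by
  intro c r hr
  have := win_succ G (c 0) (h (Fin.tail c) r hr)
  rwa [Fin.cons_self_tail] at this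

theorem CW.mono {G : SimpleGraph V} {k l : ℕ} {U : Set V} (hkl : k ≤ l) (h : CW G k U) :
    CW G l U := by
  induction hkl with
  | refl => exact h
  | step _ ih => exact ih.succ

/-- `Guard G U f P L`: the path `P 0, …, P L` of `G` together with a function `f` that is
1-Lipschitz on `U` and satisfies `f (P i) = i` whenever `P i ∈ U`. -/
structure Guard (G : SimpleGraph V) (U : Set V) (f : V → ℕ) (P : ℕ → V) (L : ℕ) : Prop where
  lip : ∀ u ∈ U, ∀ v ∈ U, G.Adj u v → f u ≤ f v + 1
  adj : ∀ i < L, G.Adj (P i) (P (i + 1))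
  val : ∀ i ≤ L, P i ∈ U → f (P i) = i

theorem Guard.mono {G : SimpleGraph V} {U U' : Set V} {f : V → ℕ} {P : ℕ → V} {L : ℕ}
    (h : Guard G U f P L) (hU : U' ⊆ U) : Guard G U' f P L :=
  ⟨fun u hu v hv => h.lip u (hU hu) v (hU hv), h.adj, fun i hi hPi => h.val i hi (hU hPi)⟩

theorem step_path {G : SimpleGraph V} {P : ℕ → V} {L : ℕ}
    (hadj : ∀ i < L, G.Adj (P i) (P (i + 1))) {i j : ℕ} (hi : i ≤ L) (hj : j ≤ L)
    (h1 : i ≤ j + 1) (h2 : j ≤ i + 1) : Step G (P i) (P j) := by
  rcases Nat.lt_trichotomy i j with h | h | h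
  · have : j = i + 1 := by omega
    subst this
    exact Or.inr (hadj i (by omega))
  · subst h; exact Or.inl rfl
  · have : i = j + 1 := by omega
    subst this
    exact Or.inr (hadj j (by omega)).symm

/-- Stage 2: a synchronised guard keeps the robber off the path. -/
theorem guard_sync (G : SimpleGraph V) {U : Set V} {f : V → ℕ} {P : ℕ → V} {L : ℕ}
    (hG : Guard G U f P L) {k : ℕ} {c : Fin k → V} {r : V}
    (h : Win G k (U \ {v | ∃ i ≤ L, P i = v}) c r) (hr : r ∈ U) :
    ∀ j ≤ L, j ≤ min (f r) L + 1 → min (f r) L ≤ j + 1 →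
      Win G (k + 1) U (Fin.cons (P j) c) r := by
  induction h with
  | capture c r c' hm h =>
    intro j hj _ _
    refine Win.capture _ r (Fin.cons (P j) c') ?_ ?_
    · exact cons_step G (Step.rfl' G _) hm
    · obtain ⟨i, hi⟩ := h
      exact ⟨i.succ, by simpa using hi⟩
  | move c r c' hm h ih =>
    intro j hj h1 h2
    refine Win.move _ r (Fin.cons (P (min (f r) L)) c') ?_ ?_
    · exact cons_step G (step_path hG.adj hj (min_le_right _ _) h1 h2) hm
    · intro r' hr' hs
      have hlip : f r ≤ f r' + 1 ∧ f r' ≤ f r + 1 := by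
        rcases hs with hs | hs
        · subst hs; omega
        · exact ⟨hG.lip r hr r' hr' hs, hG.lip r' hr' r hr hs.symm⟩
      by_cases hP : ∃ i ≤ L, P i = r'
      · obtain ⟨i, hi, hPi⟩ := hP
        have hfi : f r' = i := by rw [← hPi]; exact hG.val i hi (by rw [hPi]; exact hr')
        refine Win.capture _ r' (Fin.cons (P i) c') ?_ ⟨0, by simpa using hPi⟩
        exact cons_step G (step_path hG.adj (min_le_right _ _) hi (by omega) (by omega))
          (fun _ => Step.rfl' G _)
      · exact ih r' ⟨hr', hP⟩ hs hr' _ (min_le_right _ _) (by omega) (by omega)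

/-- Stage 1: the guard runs along the path until he is synchronised. -/
theorem guard_run (G : SimpleGraph V) {U : Set V} {f : V → ℕ} {P : ℕ → V} {L : ℕ}
    (hG : Guard G U f P L) {k : ℕ} (h : CW G k (U \ {v | ∃ i ≤ L, P i = v})) :
    ∀ n, ∀ i ≤ L, L - i ≤ n → ∀ (c : Fin k → V), ∀ r ∈ U, i ≤ f r →
      Win G (k + 1) U (Fin.cons (P i) c) r := by
  intro n
  induction n with
  | zero =>
    intro i hi hn c r hr hir
    have hiL : i = L := by omega
    by_cases hP : ∃ m ≤ L, P m = r
    · obtain ⟨m, hm, hPm⟩ := hP
      have hfm : f r = m := by rw [← hPm]; exact hG.val m hm (by rw [hPm]; exact hr)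
      apply win_here
      refine ⟨0, ?_⟩
      simp only [Fin.cons_zero]
      have : i = m := by omega
      rw [this]; exact hPm
    · exact guard_sync G hG (h c r ⟨hr, hP⟩) hr i hi (by omega) (by omega)
  | succ n ih =>
    intro i hi hn c r hr hir
    by_cases hP : ∃ m ≤ L, P m = r
    · obtain ⟨m, hm, hPm⟩ := hP
      have hfm : f r = m := by rw [← hPm]; exact hG.val m hm (by rw [hPm]; exact hr)
      rcases Nat.lt_or_ge (i + 1) m with hlt | hge
      · refine Win.move _ r (Fin.cons (P (i + 1)) c) ?_ ?_
        · exact cons_step G (Or.inr (hG.adj i (by omega))) (fun _ => Step.rfl' G _)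
        · intro r' hr' hs
          have hlip : f r ≤ f r' + 1 := by
            rcases hs with hs | hs
            · subst hs; omega
            · exact hG.lip r hr r' hr' hs
          exact ih (i + 1) (by omega) (by omega) c r' hr' (by omega)
      · refine Win.capture _ r (Fin.cons (P m) c) ?_ ⟨0, by simpa using hPm⟩
        exact cons_step G (step_path hG.adj hi hm (by omega) (by omega)) (fun _ => Step.rfl' G _)
    · rcases Nat.lt_or_ge (i + 1) (min (f r) L) with hlt | hge
      · refine Win.move _ r (Fin.cons (P (i + 1)) c) ?_ ?_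
        · exact cons_step G (Or.inr (hG.adj i (by omega))) (fun _ => Step.rfl' G _)
        · intro r' hr' hs
          have hlip : f r ≤ f r' + 1 := by
            rcases hs with hs | hs
            · subst hs; omega
            · exact hG.lip r hr r' hr' hs
          exact ih (i + 1) (by omega) (by omega) c r' hr' (by omega)
      · exact guard_sync G hG (h c r ⟨hr, hP⟩) hr i hi (by omega) (by omega)

/-- The first cop walks to a given vertex. -/
theorem walk_to (G : SimpleGraph V) {U : Set V} {k : ℕ} {g t : V} (w : G.Walk g t)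
    (h : ∀ (c : Fin k → V), ∀ r ∈ U, Win G (k + 1) U (Fin.cons t c) r) :
    ∀ (c : Fin k → V), ∀ r ∈ U, Win G (k + 1) U (Fin.cons g c) r := by
  induction w with
  | nil => exact h
  | @cons a b t hadj w ih =>
    intro c r hr
    refine Win.move _ r (Fin.cons b c) (cons_step G (Or.inr hadj) (fun _ => Step.rfl' G _)) ?_
    intro r' hr' _
    exact ih h c r' hr'

/-- **Guarding a path costs one cop.** -/
theorem CW.guard {G : SimpleGraph V} (hconn : G.Connected) {U : Set V} {f : V → ℕ} {P : ℕ → V}
    {L : ℕ} (hG : Guard G U f P L) {k : ℕ} (h : CW G k (U \ {v | ∃ i ≤ L, P i = v})) :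
    CW G (k + 1) U := by
  intro c r hr
  obtain ⟨w⟩ := hconn.preconnected (c 0) (P 0)
  have := walk_to G (U := U) w
    (fun c r hr => guard_run G hG h L 0 (Nat.zero_le _) (by omega) c r hr (Nat.zero_le _))
    (Fin.tail c) r hr
  rwa [Fin.cons_self_tail] at this

/-- **Leaf retraction.** -/
theorem CW.leaf {G : SimpleGraph V} {U : Set V} {u v : V} (hv : v ∈ U) (hu : u ∈ U)
    (huv : G.Adj v u) (honly : ∀ w ∈ U, G.Adj v w → w = u) {k : ℕ}
    (h : CW G k (U \ {v})) : CW G k U := by
  classical
  have hne : u ≠ v := huv.ne'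
  have key : ∀ (c : Fin k → V) (s : V), Win G k (U \ {v}) c s → s ∈ U \ {v} →
      ∀ r ∈ U, (if r = v then u else r) = s → Win G k U c r := by
    intro c s hw
    induction hw with
    | capture c s c' hm h =>
      intro hs r hr hrs
      obtain ⟨i, hi⟩ := h
      by_cases hrv : r = v
      · rw [if_pos hrv] at hrs
        subst hrv
        refine Win.move c r c' hm ?_
        intro r' hr' hst
        rcases hst with hst | hst
        · subst hst
          refine Win.capture c' r (fun j => if j = i then r else c' j) ?_ ⟨i, by simp⟩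
          intro j
          by_cases hj : j = i
          · subst hj
            simp only [if_true]
            rw [hi, ← hrs]
            exact Or.inr huv.symm
          · simp only [if_neg hj]; exact Or.inl rfl
        · have := honly r' hr' hst
          exact win_here G ⟨i, by rw [hi, ← hrs, this]⟩
      · rw [if_neg hrv] at hrs
        exact Win.capture c r c' hm ⟨i, by rw [hi, hrs]⟩
    | move c s c' hm h ih =>
      intro hs r hr hrs
      refine Win.move c r c' hm ?_
      intro r' hr' hst
      have hmem : (if r' = v then u else r') ∈ U \ {v} := by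
        by_cases hr'v : r' = v
        · rw [if_pos hr'v]; exact ⟨hu, hne⟩
        · rw [if_neg hr'v]; exact ⟨hr', hr'v⟩
      refine ih _ hmem ?_ hmem r' hr' rfl
      by_cases hrv : r = v
      · rw [if_pos hrv] at hrs
        by_cases hr'v : r' = v
        · rw [if_pos hr'v, hrs]; exact Or.inl rfl
        · rw [if_neg hr'v]
          rcases hst with hst | hst
          · exact absurd (hst ▸ hrv) hr'v
          · rw [honly r' hr' (hrv ▸ hst), hrs]; exact Or.inl rfl
      · rw [if_neg hrv] at hrs
        by_cases hr'v : r' = v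
        · rw [if_pos hr'v]
          rcases hst with hst | hst
          · exact absurd (hst.trans hr'v) hrv
          · rw [hr'v] at hst
            rw [← hrs, honly r hr hst.symm]; exact Or.inl rfl
        · rw [if_neg hr'v, ← hrs]; exact hst
  intro c r hr
  have hmem : (if r = v then u else r) ∈ U \ {v} := by
    by_cases hrv : r = v
    · rw [if_pos hrv]; exact ⟨hu, hne⟩
    · rw [if_neg hrv]; exact ⟨hr, hrv⟩
  exact key c _ (h c _ hmem) hmem r hr rfl

end Pool.Agent.CPG
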