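import Pool.Agent.CPG.Core

/-!
Cop number, embedding schemes (signed rotation systems), and the final estimates.
-/

namespace Pool.Agent.CPG

open Finset

/-- The cop number: the least `k` such that `k` cops can choose starting vertices from which they
catch the robber, whatever vertex the robber chooses afterwards. -/
noncomputable def copNumber {V : Type} (G : SimpleGraph V) : ℕ :=
  sInf {k | ∃ c : Fin k → V, ∀ r : V, Win G k Set.univ c r}

/-- An embedding scheme (signed rotation system) of a graph: a cyclic order of the darts at every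
vertex and a sign for every edge.  Schemes describe exactly the cellular embeddings of `G` in
closed surfaces, orientable or not. -/
structure Scheme {V : Type} (G : SimpleGraph V) where
  /-- the rotation -/
  rot : Equiv.Perm G.Dart
  /-- the rotation fixes the initial vertex -/
  rot_fst : ∀ d, (rot d).fst = d.fst
  /-- at every vertex the rotation is cyclic -/
  cyc : ∀ d e : G.Dart, d.fst = e.fst → ∃ i : ℕ, (rot ^ i) d = e
  /-- `true` on the edges that preserve the local orientation -/
  sgn : G.Dart → Bool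
  /-- the sign depends on the edge only -/
  sgn_symm : ∀ d, sgn d.symm = sgn d

/-- The face-tracing permutation: at `(d, s)` we run through the dart `d` with local orientation
`s`; at the head the orientation becomes `s'` (changed iff the edge has sign `false`) and we
continue with the next dart after the reverse of `d` in the rotation, or in the inverse rotation,
according to `s'`. -/
def Scheme.face {V : Type} {G : SimpleGraph V} (S : Scheme G) :
    Equiv.Perm (G.Dart × Bool) where
  toFun x :=
    if (x.2 == S.sgn x.1) then (S.rot x.1.symm, true) else (S.rot.symm x.1.symm, false)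
  invFun y :=
    if y.2 then ((S.rot.symm y.1).symm, S.sgn (S.rot.symm y.1).symm)
    else ((S.rot y.1).symm, !S.sgn (S.rot y.1).symm)
  left_inv := by
    rintro ⟨d, s⟩
    by_cases h : (s == S.sgn d) = true
    · have hs : s = S.sgn d := by simpa using h
      simp [hs]
    · have hs : s = !S.sgn d := by
        revert h
        cases s <;> cases S.sgn d <;> simp
      have h2 : ((!S.sgn d) == S.sgn d) = false := by cases S.sgn d <;> rfl
      simp [hs, h2]
  right_inv := by
    rintro ⟨d, s⟩
    cases s
    · have h2 : ((!S.sgn (S.rot d).symm) == S.sgn (S.rot d).symm) = false := by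
        cases S.sgn (S.rot d).symm <;> rfl
      simp [h2]
    · simp

/-- `S.HasFaces F`: the embedding has `F` faces; every face is traced by exactly two cycles of the
face-tracing permutation (one for every direction). -/
def Scheme.HasFaces {V : Type} {G : SimpleGraph V} (S : Scheme G) (F : ℕ) : Prop :=
  Nat.card (Quotient (Equiv.Perm.SameCycle.setoid S.face)) = 2 * F

theorem copNumber_le {V : Type} [Fintype V] {G : SimpleGraph V} [DecidableRel G.Adj]
    (hconn : G.Connected) {D : ℕ} (hD : 1 ≤ D) :
    copNumber G ≤ (2 * G.edgeFinset.card - 2 * Fintype.card V) / D + 2 ^ D := by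
  apply Nat.sInf_le
  obtain ⟨v⟩ := hconn.nonempty
  exact ⟨fun _ => v, fun r => cw_main hconn hD (fun _ => v) r (Set.mem_univ _)⟩

theorem logb_le_sqrt {x : ℝ} (hx : 1 ≤ x) : Real.logb 2 x ≤ 2 * Real.sqrt x := by
  have hx0 : 0 < x := by linarith
  have hs : 0 < Real.sqrt x := Real.sqrt_pos.mpr hx0
  have h1 : Real.log (Real.sqrt x / 2) ≤ Real.sqrt x / 2 - 1 :=
    Real.log_le_sub_one_of_pos (by linarith)
  have h2 : Real.log x = 2 * Real.log (Real.sqrt x) := by
    rw [Real.log_sqrt hx0.le]; ring
  have h3 : Real.log (Real.sqrt x / 2) = Real.log (Real.sqrt x) - Real.log 2 :=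
    Real.log_div hs.ne' (by norm_num)
  have hl2 : 0.69 < Real.log 2 := by linarith [Real.log_two_gt_d9]
  have hl2' : Real.log 2 < 0.7 := by linarith [Real.log_two_lt_d9]
  unfold Real.logb
  rw [div_le_iff₀ (by linarith)]
  have h4 : Real.log (Real.sqrt x) ≤ Real.sqrt x / 2 - 1 + Real.log 2 := by linarith
  have h5 : Real.log (Real.sqrt x) ≤ Real.sqrt x / 2 := by linarith
  nlinarith

theorem bound_real {c b : ℕ} (hb : 2 ≤ b)
    (h : ∀ D : ℕ, 1 ≤ D → c ≤ (2 * b - 2) / D + 2 ^ D) :
    (c : ℝ) ≤ 8 * b / Real.logb 2 b := by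
  have hbR : (2 : ℝ) ≤ b := by exact_mod_cast hb
  set L : ℝ := Real.logb 2 b with hL
  have hL1 : 1 ≤ L := by
    rw [hL, Real.le_logb_iff_rpow_le (by norm_num) (by linarith)]
    rw [Real.rpow_one]
    exact hbR
  have hpow : (2 : ℝ) ^ L = b := Real.rpow_logb (by norm_num) (by norm_num) (by linarith)
  have hD : ∀ D : ℕ, 1 ≤ D → (c : ℝ) ≤ 2 * b / D + 2 ^ D := by
    intro D hD
    have h1 := h D hD
    have h2 : (c : ℝ) ≤ (((2 * b - 2) / D : ℕ) : ℝ) + 2 ^ D := by exact_mod_cast h1
    have h3 : (((2 * b - 2) / D : ℕ) : ℝ) ≤ ((2 * b - 2 : ℕ) : ℝ) / (D : ℝ) := Nat.cast_div_le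
    have h4 : ((2 * b - 2 : ℕ) : ℝ) ≤ 2 * b := by
      have : 2 * b - 2 ≤ 2 * b := Nat.sub_le _ _
      exact_mod_cast this
    have h5 : ((2 * b - 2 : ℕ) : ℝ) / (D : ℝ) ≤ 2 * b / D :=
      div_le_div_of_nonneg_right h4 (by positivity)
    linarith
  rw [le_div_iff₀ (by linarith)]
  rcases lt_or_ge L 4 with h4 | h4
  · -- small case, `D = 1`
    have h1 : c ≤ 2 * b := by
      have := h 1 le_rfl
      omega
    have h2 : (c : ℝ) ≤ 2 * b := by exact_mod_cast h1
    have hc0 : (0 : ℝ) ≤ c := by positivity
    nlinarith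
  · -- `2 ^ 4 ≤ b`
    have hb16 : (16 : ℝ) ≤ b := by
      rw [← hpow]
      calc (16 : ℝ) = 2 ^ (4 : ℝ) := by norm_num
        _ ≤ 2 ^ L := Real.rpow_le_rpow_of_exponent_le (by norm_num) h4
    rcases lt_or_ge L 6 with h6 | h6
    · have h1 := hD 2 (by norm_num)
      norm_num at h1
      have hc0 : (0 : ℝ) ≤ c := by positivity
      nlinarith
    · set D : ℕ := ⌊L / 2⌋₊ with hDdef
      have hDle : (D : ℝ) ≤ L / 2 := Nat.floor_le (by linarith)
      have hDgt : L / 2 < D + 1 := Nat.lt_floor_add_one _
      have hD1 : 1 ≤ D := by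
        have : (2 : ℝ) < D + 1 := by linarith
        have h2 : (1 : ℝ) < D := by linarith
        exact_mod_cast h2.le
      have h1 := hD D hD1
      have hDpos : (0 : ℝ) < D := by exact_mod_cast hD1
      have h2 : (2 : ℝ) ^ D ≤ Real.sqrt b := by
        rw [← Real.rpow_natCast, Real.sqrt_eq_rpow, ← hpow, ← Real.rpow_mul (by norm_num)]
        apply Real.rpow_le_rpow_of_exponent_le (by norm_num)
        linarith
      have h3 : 2 * (b : ℝ) / D ≤ 6 * b / L := by
        rw [div_le_div_iff₀ hDpos (by linarith)]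
        have : L ≤ 3 * D := by linarith
        nlinarith
      have h5 : L ≤ 2 * Real.sqrt b := logb_le_sqrt (by linarith)
      have hsq : Real.sqrt b * Real.sqrt b = b := Real.mul_self_sqrt (by linarith)
      have h6' : Real.sqrt b * L ≤ 2 * b := by
        have := mul_le_mul_of_nonneg_left h5 (Real.sqrt_nonneg (b : ℝ))
        nlinarith
      have h7 : 6 * (b : ℝ) / L * L = 6 * b := div_mul_cancel₀ _ (by linarith)
      have hL0 : 0 ≤ L := by linarith
      calc (c : ℝ) * L ≤ (2 * b / D + 2 ^ D) * L := mul_le_mul_of_nonneg_right h1 hL0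
        _ ≤ (6 * b / L + Real.sqrt b) * L := mul_le_mul_of_nonneg_right (by linarith) hL0
        _ = 6 * b / L * L + Real.sqrt b * L := by ring
        _ ≤ 8 * b := by linarith

/-- A scheme of a graph with an edge has a face. -/
theorem faces_pos {V : Type} [Fintype V] {G : SimpleGraph V} (S : Scheme G) {F : ℕ}
    (hF : S.HasFaces F) (d : G.Dart) : 1 ≤ F := by
  classical
  by_contra h
  have hF0 : F = 0 := by omega
  subst hF0
  unfold Scheme.HasFaces at hF
  rw [Nat.mul_zero, Nat.card_eq_zero] at hF
  rcases hF with hF | hF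
  · exact hF.false (Quotient.mk _ (d, true))
  · have : Finite (Quotient (Equiv.Perm.SameCycle.setoid S.face)) :=
      Quotient.finite _
    exact not_finite (Quotient (Equiv.Perm.SameCycle.setoid S.face))

theorem final :
    (∀ (V : Type) [Fintype V] (G : SimpleGraph V) [DecidableRel G.Adj], G.Connected →
      ∀ D : ℕ, 1 ≤ D →
        copNumber G ≤ (2 * G.edgeFinset.card - 2 * Fintype.card V) / D + 2 ^ D) ∧
    (∀ (V : Type) [Fintype V] (G : SimpleGraph V) [DecidableRel G.Adj], G.Connected →
      ∀ b : ℕ, 2 ≤ b → G.edgeFinset.card + 1 = Fintype.card V + b →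
        (copNumber G : ℝ) ≤ 8 * b / Real.logb 2 b) ∧
    (∀ (V : Type) [Fintype V] (G : SimpleGraph V) [DecidableRel G.Adj], G.Connected →
      ∀ (S : Scheme G) (F k : ℕ), S.HasFaces F → 2 ≤ k →
        Fintype.card V + F + k = G.edgeFinset.card + 2 →
        (copNumber G : ℝ) ≤ 8 * (k + F - 1) / Real.logb 2 (k + F - 1) ∧
        (copNumber G : ℝ) ≤ 8 * (k + F - 1) / Real.logb 2 k) := by
  classical
  refine ⟨fun V _ G _ h D hD => copNumber_le h hD, ?_, ?_⟩
  · intro V _ G _ h b hb hm
    refine bound_real hb fun D hD => ?_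
    have h1 := copNumber_le h hD
    have h2 : 2 * G.edgeFinset.card - 2 * Fintype.card V = 2 * b - 2 := by omega
    rwa [h2] at h1
  · intro V _ G _ h S F k hF hk hm
    -- there is a dart
    have hpos : 0 < G.edgeFinset.card := by
      obtain ⟨v⟩ := h.nonempty
      have : 0 < Fintype.card V := Fintype.card_pos_iff.mpr ⟨v⟩
      omega
    obtain ⟨e, he⟩ := Finset.card_pos.mp hpos
    have hd : Nonempty G.Dart := by
      rw [SimpleGraph.mem_edgeFinset] at he
      induction e with
      | _ a b => exact ⟨⟨(a, b), he⟩⟩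
    obtain ⟨d⟩ := hd
    have hF1 := faces_pos S hF d
    have h0 : (copNumber G : ℝ) ≤ 8 * ((k + F - 1 : ℕ) : ℝ) / Real.logb 2 ((k + F - 1 : ℕ) : ℝ) := by
      refine bound_real (by omega) fun D hD => ?_
      have h1 := copNumber_le h hD
      have h2 : 2 * G.edgeFinset.card - 2 * Fintype.card V = 2 * (k + F - 1) - 2 := by omega
      rwa [h2] at h1
    have hcast : ((k + F - 1 : ℕ) : ℝ) = (k : ℝ) + F - 1 := by
      rw [Nat.cast_sub (by omega)]
      push_cast
      ring
    rw [hcast] at h0
    refine ⟨h0, h0.trans ?_⟩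
    have hkR : (2 : ℝ) ≤ k := by exact_mod_cast hk
    have hFR : (1 : ℝ) ≤ F := by exact_mod_cast hF1
    have hlk : 0 < Real.logb 2 (k : ℝ) := Real.logb_pos (by norm_num) (by linarith)
    apply div_le_div_of_nonneg_left (by linarith) hlk
    exact Real.logb_le_logb_of_le (by norm_num) (by linarith) (by linarith)

end Pool.Agent.CPG
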